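import Pool.Agent.Helper18.PB2.Goals

/-! PB2, packet STR: strict convexity. -/

set_option autoImplicit false

open MeasureTheory Measure

namespace Pool.Agent.Helper71.PB2

open Pool.Agent.Helper18.PB Pool.Agent.Helper18.PB2

theorem sm {n M : ℕ} {a : ℕ → ℝ → Eu n} {c : ℕ → ℝ} {b : Fin M → ℝ → Eu n} {A : ℕ → ℝ}
    {B : ℝ} (hD : Dat a c b A B) (u : ℝ) (x : Eu n) :
    Summable (fun k => c k * |inner ℝ (a k u) x|) := by
  refine Summable.of_nonneg_of_le (fun k => mul_nonneg (hD.cpos k).le (abs_nonneg _))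
    (fun k => ?_) (hD.csum.mul_right ‖x‖)
  calc c k * |inner ℝ (a k u) x| ≤ c k * (‖a k u‖ * ‖x‖) :=
        mul_le_mul_of_nonneg_left (abs_real_inner_le_norm _ _) (hD.cpos k).le
    _ ≤ c k * (A k * ‖x‖) :=
        mul_le_mul_of_nonneg_left (mul_le_mul_of_nonneg_right (hD.ba k u) (norm_nonneg _))
          (hD.cpos k).le
    _ = c k * A k * ‖x‖ := by ring

theorem str (h2 : HD2) : HStr := by
  intro n M a c b A B hD hs Y _ _ L hL
  apply StrictConvexSpace.of_norm_add
  intro X1 X2 h1 hh2 h12
  obtain ⟨x, rfl⟩ := L.surjective X1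
  obtain ⟨y, rfl⟩ := L.surjective X2
  rw [← map_add, hL] at h12
  rw [hL] at h1 hh2
  by_contra hne
  have hsr : ¬ SameRay ℝ x y := fun h => hne (h.map L.toLinearMap)
  obtain ⟨k0, hk0⟩ := hs x y hsr
  obtain ⟨hI, -, -⟩ := h2 n M a c b A B hD
  set F : Eu n → ℝ → ℝ := fun z u => nrm (fun k => a k u) c (fun i => b i u) z with hF
  have hpos : ∀ u, 0 < F x u + F y u - F (x + y) u := by
    intro u
    have hP : ‖(fun i : Fin M => (inner ℝ (b i u) (x + y) : ℝ))‖ ≤
        ‖(fun i : Fin M => (inner ℝ (b i u) x : ℝ))‖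
          + ‖(fun i : Fin M => (inner ℝ (b i u) y : ℝ))‖ := by
      have : (fun i : Fin M => (inner ℝ (b i u) (x + y) : ℝ)) =
          (fun i : Fin M => (inner ℝ (b i u) x : ℝ))
            + (fun i : Fin M => (inner ℝ (b i u) y : ℝ)) := by
        funext i
        rw [Pi.add_apply, inner_add_right]
      rw [this]
      exact norm_add_le _ _
    have hdS : HasSum (fun k => c k * |inner ℝ (a k u) x| + c k * |inner ℝ (a k u) y| -
        c k * |inner ℝ (a k u) (x + y)|) ((∑' k, c k * |inner ℝ (a k u) x|)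
          + (∑' k, c k * |inner ℝ (a k u) y|) - ∑' k, c k * |inner ℝ (a k u) (x + y)|) :=
      ((sm hD u x).hasSum.add (sm hD u y).hasSum).sub (sm hD u (x + y)).hasSum
    have hd0 : ∀ k, 0 ≤ c k * |inner ℝ (a k u) x| + c k * |inner ℝ (a k u) y| -
        c k * |inner ℝ (a k u) (x + y)| := by
      intro k
      have : |inner ℝ (a k u) (x + y)| ≤ |inner ℝ (a k u) x| + |inner ℝ (a k u) y| := by
        rw [inner_add_right]
        exact abs_add_le _ _
      have h3 := mul_le_mul_of_nonneg_left this (hD.cpos k).le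
      rw [mul_add] at h3
      linarith
    have hk : 0 < c k0 * |inner ℝ (a k0 u) x| + c k0 * |inner ℝ (a k0 u) y| -
        c k0 * |inner ℝ (a k0 u) (x + y)| := by
      obtain ⟨p1, p2⟩ := hk0 u
      have h3 : |inner ℝ (a k0 u) (x + y)| < |inner ℝ (a k0 u) x| + |inner ℝ (a k0 u) y| := by
        rw [inner_add_right, abs_of_pos p1, abs_of_neg p2, abs_lt]
        constructor <;> linarith
      have h4 := mul_lt_mul_of_pos_left h3 (hD.cpos k0)
      rw [mul_add] at h4
      linarith
    have hle := hdS.summable.le_tsum k0 (fun j _ => hd0 j)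
    rw [hdS.tsum_eq] at hle
    simp only [hF]
    unfold nrm
    linarith
  have hint : IntegrableOn (fun u => F x u + F y u - F (x + y) u) (Set.Icc 0 1) :=
    ((hI x).add (hI y)).sub (hI (x + y))
  have hgt : 0 < ∫ u in Set.Icc (0 : ℝ) 1, (F x u + F y u - F (x + y) u) := by
    rw [setIntegral_pos_iff_support_of_nonneg_ae
      (Filter.Eventually.of_forall fun u => (hpos u).le) hint]
    have hsupp : Function.support (fun u => F x u + F y u - F (x + y) u) = Set.univ := by
      ext u
      simp [(hpos u).ne']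
    rw [hsupp, Set.univ_inter]
    simp
  have heq : ∫ u in Set.Icc (0 : ℝ) 1, (F x u + F y u - F (x + y) u)
      = nm a c b x + nm a c b y - nm a c b (x + y) := by
    have e1 := integral_sub ((hI x).add (hI y)) (hI (x + y))
    have e2 := integral_add (hI x) (hI y)
    unfold nm
    rw [← e2]
    exact e1
  rw [heq] at hgt
  linarith

end Pool.Agent.Helper71.PB2
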